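import Pool.Agent.U152.RK.Eng

/-!
# Sums over a finite group and torsion elements
-/

set_option autoImplicit false

namespace Pool.Agent.U725.RE

open Module Pool.Agent.U10.Shr Pool.Agent.U152.RK

section abs

variable {R : Type*} [CommRing R] [IsDomain R] [CharZero R] {V : Type*} [AddCommGroup V] [Module R V]
  {Q : Type*} [Group Q] [Fintype Q] {ι : Type*} [Fintype ι]

theorem tor_zsmul {x : V} (hx : Tor R x) (c : ℤ) : Tor R (c • x) := by
  rw [← Int.cast_smul_eq_zsmul R]
  exact hx.smul _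

theorem tor_of_zsmul {x : V} {c : ℤ} (hc : c ≠ 0) (hx : Tor R (c • x)) : Tor R x := by
  rw [← Int.cast_smul_eq_zsmul R] at hx
  exact Tor.of_smul (Int.cast_ne_zero.2 hc) hx

open Classical in
/-- If the indicator function of `S` is a combination of functions `f i` which are invariant under the
right translations by the elements of `T i`, and all the vectors fixed by some `T i` are torsion, then
all the vectors fixed by `S` are torsion. -/
theorem tor_of_fun (ρ : Q →* Module.End R V) (S : Subgroup Q) (T : ι → Subgroup Q)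
    (f : ι → Q → ℤ) {C : ℤ} (hC : C ≠ 0) (hinv : ∀ i q, ∀ s ∈ T i, f i (q * s) = f i q)
    (hsum : ∀ q, ∑ i, f i q = if q ∈ S then C else 0)
    (hT : ∀ i y, (∀ s ∈ T i, ρ s y = y) → Tor R y) {x : V} (hx : ∀ s ∈ S, ρ s x = x) :
    Tor R x := by
  have h1 : ∀ i, Tor R (∑ q, f i q • ρ q x) := by
    intro i
    obtain ⟨y, hy⟩ : ∃ y, y = ∑ s : T i, ρ (s : Q) x := ⟨_, rfl⟩
    have hyT : Tor R y := by
      refine hT i y fun t ht => ?_
      rw [hy, map_sum]
      refine Fintype.sum_equiv (Equiv.mulLeft (⟨t, ht⟩ : T i)) _ _ fun s => ?_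
      show ρ t (ρ (s : Q) x) = ρ (t * (s : Q)) x
      rw [map_mul]
      rfl
    have h2 : (Fintype.card (T i)) • (∑ q, f i q • ρ q x) = ∑ q, f i q • ρ q y := by
      have h3 : ∀ s : T i, ∑ q, f i q • ρ q x = ∑ q, f i q • ρ q (ρ (s : Q) x) := by
        intro s
        symm
        refine Fintype.sum_equiv (Equiv.mulRight (s : Q)) _ _ fun q => ?_
        show f i q • ρ q (ρ (s : Q) x) = f i (q * s) • ρ (q * (s : Q)) x
        rw [hinv i q s s.2, map_mul]
        rfl
      have h4 : (Fintype.card (T i)) • (∑ q, f i q • ρ q x) =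
          ∑ s : T i, ∑ q, f i q • ρ q (ρ (s : Q) x) := by
        rw [← Finset.sum_congr rfl fun s _ => h3 s, Finset.sum_const, Finset.card_univ]
      rw [h4, Finset.sum_comm]
      refine Finset.sum_congr rfl fun q _ => ?_
      rw [← Finset.smul_sum, hy, map_sum]
    have h5 : Tor R (∑ q, f i q • ρ q y) := Tor.sum fun q _ => tor_zsmul (hyT.map _) _
    rw [← h2] at h5
    exact h5.of_nsmul Fintype.card_ne_zero
  have h6 : Tor R (∑ i, ∑ q, f i q • ρ q x) := Tor.sum fun i _ => h1 i
  have h7 : ∑ i, ∑ q, f i q • ρ q x = (Fintype.card S) • C • x := by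
    rw [Finset.sum_comm]
    have h8 : ∀ q : Q, ∑ i, f i q • ρ q x = if q ∈ S then C • x else 0 := by
      intro q
      rw [← Finset.sum_smul, hsum q]
      split_ifs with h
      · rw [hx q h]
      · rw [zero_smul]
    rw [Finset.sum_congr rfl fun q _ => h8 q, ← Finset.sum_filter, Finset.sum_const]
    congr 1
    rw [Fintype.card_subtype]
  rw [h7] at h6
  exact tor_of_zsmul hC (h6.of_nsmul Fintype.card_ne_zero)

end abs

section roots

/-- An integral substitute for the sums of roots of unity. -/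
theorem exists_u (A : Type*) [Field A] [CharZero A] (m : ℕ) (hm : 1 ≤ m) :
    ∃ (u : A → ℤ) (D : ℤ), D ≠ 0 ∧ ∀ (ι : Type) [Fintype ι] (z : ι → A) (c : ℤ),
      (∀ i, z i ^ m = 1) → ∑ i, z i = (c : A) → ∑ i, u (z i) = c * D := by
  classical
  obtain ⟨e, he⟩ : ∃ e : Module.Dual ℚ A, e (1 : A) ≠ 0 := by
    by_contra hcon
    exact one_ne_zero (α := A) ((Module.forall_dual_apply_eq_zero_iff ℚ (1 : A)).1 fun e => by
      by_contra h
      exact hcon ⟨e, h⟩)
  obtain ⟨l, hl⟩ : ∃ l : Module.Dual ℚ A, l (1 : A) = 1 :=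
    ⟨(e 1)⁻¹ • e, by rw [LinearMap.smul_apply, smul_eq_mul, inv_mul_cancel₀ he]⟩
  have hli : ∀ c : ℤ, l (c : A) = c := by
    intro c
    have h1 : (c : A) = c • (1 : A) := by rw [zsmul_one]
    rw [h1, map_zsmul, hl, zsmul_one]
  let W : Finset A := Polynomial.nthRootsFinset m (1 : A)
  let D : ℕ := ∏ w ∈ W, (l w).den
  have hD : D ≠ 0 := Finset.prod_ne_zero_iff.2 fun w _ => (l w).den_nz
  refine ⟨fun z => ((D : ℚ) * l z).num, D, by exact_mod_cast hD, ?_⟩
  intro ι _ z c hz hsum
  have hint : ∀ i, (((D : ℚ) * l (z i)).num : ℚ) = (D : ℚ) * l (z i) := by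
    intro i
    have hw : z i ∈ W := (Polynomial.mem_nthRootsFinset (by omega) (1 : A)).2 (hz i)
    obtain ⟨t, ht⟩ : (l (z i)).den ∣ D := Finset.dvd_prod_of_mem _ hw
    have h1 : (D : ℚ) * l (z i) = (((t : ℤ) * (l (z i)).num : ℤ) : ℚ) := by
      rw [ht]
      push_cast
      have h2 := Rat.mul_den_eq_num (l (z i))
      calc ((l (z i)).den : ℚ) * t * l (z i) = t * (l (z i) * (l (z i)).den) := by ring
        _ = t * (l (z i)).num := by rw [h2]
    rw [h1, Rat.num_intCast]
  have h3 : ((∑ i, ((D : ℚ) * l (z i)).num : ℤ) : ℚ) = ((c * D : ℤ) : ℚ) := by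
    push_cast
    rw [Finset.sum_congr rfl fun i _ => hint i, ← Finset.mul_sum, ← map_sum, hsum, hli]
    ring
  exact_mod_cast h3

theorem geom {A : Type*} [Field A] {x : A} {m : ℕ} (hx : x ^ m = 1) [Decidable (x = 1)] :
    ∑ k : Fin m, x ^ (k : ℕ) = if x = 1 then (m : A) else 0 := by
  rw [Fin.sum_univ_eq_sum_range (fun k => x ^ k) m]
  split_ifs with h
  · subst h
    simp
  · have h1 := mul_neg_geom_sum x m
    rw [hx, sub_self] at h1
    exact (mul_eq_zero.1 h1).resolve_left (sub_ne_zero.2 (Ne.symm h))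

end roots

end Pool.Agent.U725.RE
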