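import Pool.Agent.U725.RE.Mu

/-!
# Division of angles: fields generated by subfields and by cosines
-/

set_option autoImplicit false

namespace Pool.Agent.U725.RE

open Module IntermediateField Pool.Agent.U10.Mu

section defs

variable {k : Type*} [Field k] {A : Type*} [Field A] [Algebra k A]

/-- The field of the elements of `E(δ, b_1, ..., b_r)` which are fixed by `c`. -/
def cosTop (c : A ≃ₐ[k] A) (E : IntermediateField k A) (δ : A) {r : ℕ} (b : Fin r → A) :
    IntermediateField k A :=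
  (E ⊔ IntermediateField.adjoin k {δ} ⊔ IntermediateField.adjoin k (Set.range b)) ⊓
    IntermediateField.fixedField (Subgroup.zpowers c)

/-- The field of the elements of `E(δ, b)` which are fixed by `c`, `b = ∏ b_i ^ (e i)`. -/
def cosSimple (c : A ≃ₐ[k] A) (E : IntermediateField k A) (δ : A) {m r : ℕ} (b : Fin r → A)
    (e : Fin r → Fin m) : IntermediateField k A :=
  (E ⊔ IntermediateField.adjoin k {δ} ⊔ IntermediateField.adjoin k {∏ i, b i ^ (e i : ℕ)}) ⊓
    IntermediateField.fixedField (Subgroup.zpowers c)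

/-- The automorphism `c` is trivial on `E`, `c δ = - δ` and `δ ^ 2 ∈ E`, `δ ≠ 0`; `c (b i) = (b i)⁻¹`, and
`(b i) ^ m` is in `E(δ)`, `m ≥ 1`. -/
structure IsAngle (c : A ≃ₐ[k] A) (E : IntermediateField k A) (δ : A) (m : ℕ) {r : ℕ}
    (b : Fin r → A) : Prop where
  pos : 1 ≤ m
  fixE : ∀ x ∈ E, c x = x
  neg : c δ = -δ
  sq : δ ^ 2 ∈ E
  ne : δ ≠ 0
  neb : ∀ i, b i ≠ 0
  inv : ∀ i, c (b i) = (b i)⁻¹
  pow_mem : ∀ i, b i ^ m ∈ E ⊔ IntermediateField.adjoin k {δ}

end defs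

section cos

variable {k : Type*} [Field k] {A : Type*} [Field A] [Algebra k A]
  {c : A ≃ₐ[k] A} {E : IntermediateField k A} {δ : A} {m r : ℕ} {b : Fin r → A}

theorem mem_fix {x : A} : x ∈ IntermediateField.fixedField (Subgroup.zpowers c) ↔ c x = x := by
  rw [IntermediateField.mem_fixedField_iff]
  constructor
  · exact fun h => h c (Subgroup.mem_zpowers c)
  · intro h f hf
    have h1 : Subgroup.zpowers c ≤ MulAction.stabilizer (A ≃ₐ[k] A) x := by
      rw [Subgroup.zpowers_le]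
      exact h
    exact h1 hf

theorem isRadical_of (h : IsAngle c E δ m b) :
    IsRadical (E ⊔ IntermediateField.adjoin k {δ})
      (E ⊔ IntermediateField.adjoin k {δ} ⊔ IntermediateField.adjoin k (Set.range b)) m b :=
  ⟨h.pos, h.neb, h.pow_mem, rfl⟩

theorem cosSimple_le (h : IsAngle c E δ m b) (e : Fin r → Fin m) :
    cosSimple c E δ b e ≤ cosTop c E δ b :=
  inf_le_inf_right _ (simple_le (isRadical_of h) e)

theorem E_le_simple (h : IsAngle c E δ m b) (e : Fin r → Fin m) : E ≤ cosSimple c E δ b e :=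
  le_inf (le_sup_left.trans le_sup_left) fun _ hx => mem_fix.2 (h.fixE _ hx)

theorem E_le_top (h : IsAngle c E δ m b) : E ≤ cosTop c E δ b :=
  le_inf (le_sup_left.trans le_sup_left) fun _ hx => mem_fix.2 (h.fixE _ hx)

theorem fixK {g : A ≃ₐ[k] A} (hg : ∀ x ∈ E, g x = x) (hd : g δ = δ) :
    ∀ x ∈ E ⊔ IntermediateField.adjoin k {δ}, g x = x := by
  let K : IntermediateField k A :=
    { AlgHom.equalizer (g : A →ₐ[k] A) (AlgHom.id k A) with
      inv_mem' := fun x hx => by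
        have hx' : g x = x := hx
        show g x⁻¹ = x⁻¹
        rw [map_inv₀, hx'] }
  have h1 : E ⊔ IntermediateField.adjoin k {δ} ≤ K := by
    refine sup_le (fun x hx => hg x hx) ?_
    rw [IntermediateField.adjoin_le_iff]
    rintro _ rfl
    exact hd
  exact fun x hx => h1 hx

/-- The normalised value. -/
noncomputable def nv (δ : A) (g : A ≃ₐ[k] A) (x : A) : A :=
  (g (x + x⁻¹) + g (δ * (x - x⁻¹)) / δ) / 2

theorem nv_pos [CharZero A] (hδ : δ ≠ 0) {g : A ≃ₐ[k] A} (hd : g δ = δ) (x : A) : nv δ g x = g x := by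
  unfold nv
  rw [map_mul, hd, mul_div_cancel_left₀ _ hδ, map_add, map_sub, map_inv₀]
  ring

theorem nv_neg [CharZero A] (hδ : δ ≠ 0) {g : A ≃ₐ[k] A} (hd : g δ = -δ) (x : A) :
    nv δ g x = g x⁻¹ := by
  unfold nv
  rw [map_mul, hd, neg_mul, neg_div, mul_div_cancel_left₀ _ hδ, map_add, map_sub, map_inv₀]
  ring

theorem dich (h : IsAngle c E δ m b) {g : A ≃ₐ[k] A} (hg : ∀ x ∈ E, g x = x) :
    g δ = δ ∨ g δ = -δ := by
  have h1 : (g δ) ^ 2 = δ ^ 2 := by rw [← map_pow, hg _ h.sq]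
  exact sq_eq_sq_iff_eq_or_eq_neg.1 h1

theorem c_prod (h : IsAngle c E δ m b) (e : Fin r → Fin m) :
    c (∏ i, b i ^ (e i : ℕ)) = (∏ i, b i ^ (e i : ℕ))⁻¹ := by
  rw [map_prod, ← Finset.prod_inv_distrib]
  refine Finset.prod_congr rfl fun i _ => ?_
  rw [map_pow, h.inv, inv_pow]

theorem x_mem (h : IsAngle c E δ m b) (e : Fin r → Fin m) :
    (∏ i, b i ^ (e i : ℕ)) + (∏ i, b i ^ (e i : ℕ))⁻¹ ∈ cosSimple c E δ b e := by
  have h1 := b_mem (E := E ⊔ IntermediateField.adjoin k {δ}) (a := b) e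
  refine ⟨add_mem h1 (inv_mem h1), ?_⟩
  refine mem_fix.2 ?_
  rw [map_add, map_inv₀, c_prod h, inv_inv, add_comm]

theorem y_mem (h : IsAngle c E δ m b) (e : Fin r → Fin m) :
    δ * ((∏ i, b i ^ (e i : ℕ)) - (∏ i, b i ^ (e i : ℕ))⁻¹) ∈ cosSimple c E δ b e := by
  have h1 := b_mem (E := E ⊔ IntermediateField.adjoin k {δ}) (a := b) e
  have h2 : δ ∈ E ⊔ IntermediateField.adjoin k {δ} ⊔
      IntermediateField.adjoin k {∏ i, b i ^ (e i : ℕ)} :=
    (le_sup_left : E ⊔ IntermediateField.adjoin k {δ} ≤ _)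
      ((le_sup_right : IntermediateField.adjoin k {δ} ≤ E ⊔ IntermediateField.adjoin k {δ})
        (IntermediateField.subset_adjoin k _ rfl))
  refine ⟨mul_mem h2 (sub_mem h1 (inv_mem h1)), ?_⟩
  refine mem_fix.2 ?_
  rw [map_mul, h.neg, map_sub, map_inv₀, c_prod h, inv_inv]
  ring

theorem nv_congr {g g' : A ≃ₐ[k] A} {e : Fin r → Fin m} (h : IsAngle c E δ m b)
    (hgg : ∀ x ∈ cosSimple c E δ b e, g x = g' x) :
    nv δ g (∏ i, b i ^ (e i : ℕ)) = nv δ g' (∏ i, b i ^ (e i : ℕ)) := by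
  unfold nv
  rw [hgg _ (x_mem h e), hgg _ (y_mem h e)]

theorem nv_one [CharZero A] (h : IsAngle c E δ m b) (e : Fin r → Fin m) :
    nv δ (1 : A ≃ₐ[k] A) (∏ i, b i ^ (e i : ℕ)) = ∏ i, b i ^ (e i : ℕ) :=
  nv_pos h.ne rfl _

theorem prod_ne (h : IsAngle c E δ m b) (e : Fin r → Fin m) : (∏ i, b i ^ (e i : ℕ)) ≠ 0 :=
  Finset.prod_ne_zero_iff.2 fun i _ => pow_ne_zero _ (h.neb i)

theorem nv_pow [CharZero A] (h : IsAngle c E δ m b) {g : A ≃ₐ[k] A} (hg : ∀ x ∈ E, g x = x)
    (e : Fin r → Fin m) :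
    (nv δ g (∏ i, b i ^ (e i : ℕ)) / (∏ i, b i ^ (e i : ℕ))) ^ m = 1 := by
  have hR := isRadical_of h
  rcases dich h hg with hd | hd
  · rw [nv_pos h.ne hd]
    exact z_pow hR (fixK hg hd) e
  · have hg' : ∀ x ∈ E, (g * c) x = x := fun x hx => by
      rw [AlgEquiv.mul_apply, h.fixE x hx, hg x hx]
    have hd' : (g * c) δ = δ := by rw [AlgEquiv.mul_apply, h.neg, map_neg, hd, neg_neg]
    rw [nv_neg h.ne hd, ← c_prod h]
    exact z_pow hR (fixK hg' hd') e

theorem nv_sum [CharZero A] (h : IsAngle c E δ m b) {g : A ≃ₐ[k] A} (hg : ∀ x ∈ E, g x = x)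
    (hF : ¬ ∀ x ∈ cosTop c E δ b, g x = x) :
    ∑ e : Fin r → Fin m, nv δ g (∏ i, b i ^ (e i : ℕ)) / (∏ i, b i ^ (e i : ℕ)) = 0 := by
  classical
  have hR := isRadical_of h
  rcases dich h hg with hd | hd
  · have hK := fixK hg hd
    rw [Finset.sum_congr rfl fun e _ => by rw [nv_pos h.ne hd], z_sum hR hK]
    exact if_neg fun h1 => hF fun x hx => fix_of hR hK h1 x hx.1
  · have hg' : ∀ x ∈ E, (g * c) x = x := fun x hx => by
      rw [AlgEquiv.mul_apply, h.fixE x hx, hg x hx]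
    have hd' : (g * c) δ = δ := by rw [AlgEquiv.mul_apply, h.neg, map_neg, hd, neg_neg]
    have hK := fixK hg' hd'
    rw [Finset.sum_congr rfl fun e _ => by rw [nv_neg h.ne hd, ← c_prod h, ← AlgEquiv.mul_apply],
      z_sum hR hK]
    refine if_neg fun h1 => hF fun x hx => ?_
    have h2 := fix_of hR hK h1 x hx.1
    rwa [AlgEquiv.mul_apply, mem_fix.1 hx.2] at h2

/-- **Division of angles**, modulo `p`. -/
theorem decomposesIn_cos [CharZero A] (h : IsAngle c E δ m b) (p : ℕ) [hp : Fact p.Prime]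
    (hpm : ¬ p ∣ m) :
    DecomposesIn (ZMod p) (cosTop c E δ b) (fun e : Fin r → Fin m => cosSimple c E δ b e) := by
  classical
  obtain ⟨u, hu⟩ := exists_up A p
  have hm : ((m : ZMod p) ^ r) ≠ 0 := by
    refine pow_ne_zero _ fun h0 => hpm ?_
    exact (ZMod.natCast_eq_zero_iff m p).1 h0
  refine ⟨fun e g => if ∀ x ∈ E, g x = x then
    ((m : ZMod p) ^ r)⁻¹ * u (nv δ g (∏ i, b i ^ (e i : ℕ)) / ∏ i, b i ^ (e i : ℕ)) else 0,
    ?_, ?_, ?_⟩
  · intro e g g' hgg
    have h1 : (∀ x ∈ E, g x = x) ↔ ∀ x ∈ E, g' x = x := by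
      have h2 : ∀ x ∈ E, g x = g' x := fun x hx => hgg x (E_le_simple h e hx)
      exact ⟨fun h3 x hx => by rw [← h2 x hx, h3 x hx], fun h3 x hx => by rw [h2 x hx, h3 x hx]⟩
    simp only [h1, nv_congr h hgg]
  · intro g hg
    have h1 : ∀ x ∈ E, g x = x := fun x hx => hg x (E_le_top h hx)
    have h2 : ∀ e : Fin r → Fin m,
        nv δ g (∏ i, b i ^ (e i : ℕ)) / (∏ i, b i ^ (e i : ℕ)) = 1 := by
      intro e
      rw [nv_congr h (g' := 1) fun x hx => hg x (cosSimple_le h e hx), nv_one h, div_self (prod_ne h e)]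
    simp only [if_pos h1]
    rw [← Finset.mul_sum, hu _ _ ((m : ℤ) ^ r) (fun e => by rw [h2 e]; exact isIntegral_one)
      (by simp [h2])]
    push_cast
    exact inv_mul_cancel₀ hm
  · intro g hg
    by_cases h1 : ∀ x ∈ E, g x = x
    · simp only [if_pos h1]
      rw [← Finset.mul_sum, hu _ _ 0 (fun e => IsIntegral.of_pow h.pos (by
        rw [nv_pow h h1 e]; exact isIntegral_one)) (by rw [nv_sum h h1 hg, Int.cast_zero])]
      simp
    · simp only [if_neg h1]
      exact Finset.sum_const_zero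

end cos

section real

variable {k : Type*} [Field k] {A : Type*} [Field A] [Algebra k A]
  {c : A ≃ₐ[k] A} {E : IntermediateField k A} {δ : A} {m r : ℕ} {b : Fin r → A}

/-- All embeddings of `A` into the complex numbers are real on `K`. -/
def TotReal (K : IntermediateField k A) : Prop := ∀ σ : A →+* ℂ, ∀ x ∈ K, (σ x).im = 0

open ComplexConjugate in
theorem totReal_cos (h : IsAngle c E δ m b) (hE : TotReal E)
    (hδ : ∀ σ : A →+* ℂ, (σ (δ ^ 2)).re < 0) : TotReal (cosTop c E δ b) := by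
  intro σ
  let K : IntermediateField k A :=
    { RingHom.eqLocusField ((starRingEnd ℂ).comp σ) (σ.comp (c : A →+* A)) with
      algebraMap_mem' := fun x => by
        show conj (σ (algebraMap k A x)) = σ (c (algebraMap k A x))
        rw [AlgEquiv.commutes]
        exact Complex.conj_eq_iff_im.2 (hE σ _ (E.algebraMap_mem x)) }
  have hK : ∀ x, x ∈ K ↔ conj (σ x) = σ (c x) := fun x => Iff.rfl
  have h1 : E ≤ K := fun x hx => by
    rw [hK, h.fixE x hx]
    exact Complex.conj_eq_iff_im.2 (hE σ x hx)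
  have h2 : δ ∈ K := by
    rw [hK, h.neg, map_neg]
    have h3 : (σ δ) ^ 2 = ((σ (δ ^ 2)).re : ℂ) := by
      rw [← map_pow]
      exact (Complex.ext (by simp) (by simpa using hE σ _ h.sq))
    have h4 := hδ σ
    have h5 : (σ δ).re * (σ δ).re - (σ δ).im * (σ δ).im = (σ (δ ^ 2)).re := by
      have := congrArg Complex.re h3
      simpa [pow_two] using this
    have h6 : (σ δ).re * (σ δ).im + (σ δ).im * (σ δ).re = 0 := by
      have := congrArg Complex.im h3
      simpa [pow_two] using this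
    have h7 : (σ δ).re = 0 := by
      by_contra hne
      have h8 : (σ δ).im = 0 := by
        have h9 : (σ δ).re * (σ δ).im = 0 := by linarith [mul_comm (σ δ).re (σ δ).im]
        exact (mul_eq_zero.1 h9).resolve_left hne
      rw [h8] at h5
      nlinarith [mul_self_nonneg (σ δ).re]
    refine Complex.ext ?_ ?_ <;> simp [h7]
  have h3 : E ⊔ IntermediateField.adjoin k {δ} ≤ K := by
    refine sup_le h1 ?_
    rw [IntermediateField.adjoin_le_iff]
    rintro _ rfl
    exact h2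
  have h4 : ∀ i, b i ∈ K := by
    intro i
    rw [hK, h.inv, map_inv₀]
    have h5 := (hK _).1 (h3 (h.pow_mem i))
    have h6 : σ (b i) ≠ 0 := (map_ne_zero σ).2 (h.neb i)
    rw [map_pow, map_pow, map_pow, h.inv, map_pow, map_inv₀] at h5
    have h7 : ‖σ (b i)‖ ^ m = (‖σ (b i)‖⁻¹) ^ m := by
      have := congrArg norm h5
      rwa [norm_pow, norm_pow, norm_inv, RCLike.norm_conj] at this
    have hpos : 0 < ‖σ (b i)‖ := norm_pos_iff.2 h6
    have h8 : ‖σ (b i)‖ = ‖σ (b i)‖⁻¹ :=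
      (pow_left_inj₀ hpos.le (inv_nonneg.2 hpos.le) (by have := h.pos; omega)).1 h7
    have h9 : ‖σ (b i)‖ = 1 := by
      have h10 : ‖σ (b i)‖ * ‖σ (b i)‖ = 1 := by
        nth_rw 2 [h8]
        exact mul_inv_cancel₀ hpos.ne'
      nlinarith
    rw [Complex.inv_def, Complex.normSq_eq_norm_sq, h9]
    simp
  have h5 : E ⊔ IntermediateField.adjoin k {δ} ⊔ IntermediateField.adjoin k (Set.range b) ≤ K := by
    refine sup_le h3 ?_
    rw [IntermediateField.adjoin_le_iff]
    rintro _ ⟨i, rfl⟩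
    exact h4 i
  intro x hx
  have h6 := (hK x).1 (h5 hx.1)
  rw [mem_fix.1 hx.2] at h6
  exact Complex.conj_eq_iff_im.1 h6

end real

end Pool.Agent.U725.RE
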