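import Pool.Agent.U725.RE.Cos
import Pool.Agent.U463.XS.Fld

/-!
# Decompositions of the indicator function and domination, all group orders
-/

set_option autoImplicit false

namespace Pool.Agent.U725.RE

open Module IntermediateField

section group

variable {R : Type*} [CommRing R] {V : Type*} [AddCommGroup V] [Module R V]
  {G : Type*} [Group G] {ι : Type*} [Fintype ι]

/-- No division is needed. -/
theorem zero_of_fun' (τ : G →* Module.End R V) (S : Subgroup G) (hfin : S.FiniteIndex)
    (T : ι → Subgroup G) (hST : ∀ i, S ≤ T i) (f : ι → G → R)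
    (hinv : ∀ i g, ∀ t ∈ T i, f i (g * t) = f i g)
    (hS1 : ∀ g ∈ S, ∑ i, f i g = 1) (hS0 : ∀ g, g ∉ S → ∑ i, f i g = 0)
    (hT : ∀ i y, (∀ t ∈ T i, τ t y = y) → y = 0) {x : V} (hx : ∀ s ∈ S, τ s x = x) : x = 0 := by
  classical
  have hft : Fintype (G ⧸ S) := Fintype.ofFinite _
  let m : G ⧸ S → V := fun q => τ q.out x
  have hm : ∀ g : G, m (g : G ⧸ S) = τ g x := by
    intro g
    obtain ⟨s, hs⟩ := QuotientGroup.mk_out_eq_mul S g
    show τ (g : G ⧸ S).out x = _
    rw [hs, map_mul, Module.End.mul_apply, hx s s.2]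
  have hmh : ∀ (h : G) (q : G ⧸ S), m (h • q) = τ h (m q) := by
    intro h q
    induction q using QuotientGroup.induction_on with
    | H g =>
      have h1 : h • (g : G ⧸ S) = ((h * g : G) : G ⧸ S) := rfl
      rw [h1, hm, hm, map_mul, Module.End.mul_apply]
  have hz : ∀ i, ∑ q : G ⧸ S, f i q.out • m q = 0 := by
    intro i
    let π : G ⧸ S → G ⧸ T i := Subgroup.quotientMapOfLE (hST i)
    have hπ : ∀ g : G, π (g : G ⧸ S) = (g : G ⧸ T i) := fun g => rfl
    have hπh : ∀ (h : G) (q : G ⧸ S), π (h • q) = h • π q := by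
      intro h q
      induction q using QuotientGroup.induction_on with
      | H g => rfl
    let W : G ⧸ T i → V := fun r => ∑ q ∈ (Finset.univ : Finset (G ⧸ S)) with π q = r, m q
    have hW : ∀ (h : G) (r : G ⧸ T i), W (h • r) = τ h (W r) := by
      intro h r
      show ∑ q ∈ (Finset.univ : Finset (G ⧸ S)) with π q = h • r, m q = τ h (∑ q ∈ (Finset.univ : Finset (G ⧸ S)) with π q = r, m q)
      rw [map_sum]
      symm
      refine Finset.sum_bij (fun q _ => h • q) (fun q hq => ?_) (fun q _ q' _ hh => ?_)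
        (fun q hq => ⟨h⁻¹ • q, ?_, ?_⟩) (fun q _ => (hmh h q).symm)
      · rw [Finset.mem_filter] at hq ⊢
        exact ⟨Finset.mem_univ _, by rw [hπh, hq.2]⟩
      · exact smul_left_cancel h hh
      · rw [Finset.mem_filter] at hq ⊢
        exact ⟨Finset.mem_univ _, by rw [hπh, hq.2, inv_smul_smul]⟩
      · exact smul_inv_smul h q
    have hW1 : W ((1 : G) : G ⧸ T i) = 0 := by
      refine hT i _ fun t ht => ?_
      rw [← hW]
      congr 1
      show ((t * 1 : G) : G ⧸ T i) = ((1 : G) : G ⧸ T i)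
      rw [mul_one]
      exact QuotientGroup.eq.2 (by rw [mul_one]; exact inv_mem ht)
    have hW0 : ∀ r, W r = 0 := by
      intro r
      induction r using QuotientGroup.induction_on with
      | H g =>
        have h1 : ((g : G) : G ⧸ T i) = g • ((1 : G) : G ⧸ T i) := by
          show _ = ((g * 1 : G) : G ⧸ T i)
          rw [mul_one]
        rw [h1, hW, hW1, map_zero]
    have hf : ∀ q : G ⧸ S, f i q.out = f i (π q).out := by
      intro q
      obtain ⟨s, hs⟩ := QuotientGroup.mk_out_eq_mul (T i) q.out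
      have h1 : π q = (q.out : G ⧸ T i) := by
        conv_lhs => rw [← QuotientGroup.out_eq' q]
        rfl
      rw [h1, hs, hinv i _ s s.2]
    rw [← Finset.sum_fiberwise_of_maps_to (t := Finset.univ.image π) (g := π)
      (fun q hq => Finset.mem_image_of_mem π hq)]
    refine Finset.sum_eq_zero fun r _ => ?_
    have h2 : ∀ q ∈ (Finset.univ : Finset (G ⧸ S)).filter (fun q => π q = r),
        f i q.out • m q = f i r.out • m q := by
      intro q hq
      rw [hf q, (Finset.mem_filter.1 hq).2]
    rw [Finset.sum_congr rfl h2, ← Finset.smul_sum]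
    have h3 : ∑ q ∈ (Finset.univ : Finset (G ⧸ S)) with π q = r, m q = 0 := hW0 r
    rw [h3, smul_zero]
  have h1 : ∑ i, ∑ q : G ⧸ S, f i q.out • m q = 0 := Finset.sum_eq_zero fun i _ => hz i
  rw [Finset.sum_comm] at h1
  have h2 : ∀ q : G ⧸ S, ∑ i, f i q.out • m q = if q = ((1 : G) : G ⧸ S) then x else 0 := by
    intro q
    rw [← Finset.sum_smul]
    split_ifs with hq
    · have h3 : q.out ∈ S := by
        have h4 : ((q.out : G) : G ⧸ S) = ((1 : G) : G ⧸ S) := by rw [QuotientGroup.out_eq', hq]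
        have h5 := QuotientGroup.eq.1 h4.symm
        simpa using h5
      rw [hS1 _ h3, one_smul]
      exact hx _ h3
    · have h3 : q.out ∉ S := by
        intro h4
        refine hq ?_
        rw [← QuotientGroup.out_eq' q]
        exact (QuotientGroup.eq.2 (by simpa using h4)).symm
      rw [hS0 _ h3, zero_smul]
  rw [Finset.sum_congr rfl fun q _ => h2 q, Finset.sum_ite_eq' Finset.univ, if_pos (Finset.mem_univ _)] at h1
  exact h1

end group

section field

open Pool.Agent.Q60.MU Pool.Agent.U463.MD Pool.Agent.U463.XS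

variable {p : ℕ} [hp : Fact p.Prime] {F : IntermediateField ℚ Qb}

theorem dominates_of {ι : Type} [Fintype ι] {E : ι → IntermediateField ℚ Qb} (hFf : FiniteDimensional ℚ F)
    (hE : ∀ i, E i ≤ F) (hdec : DecomposesIn (ZMod p) F E) (N : IntermediateField ℚ Qb) :
    Dominates p N (Set.range E) F := by
  intro V _ _ _ τ _ hv
  obtain ⟨v, hv0, hv⟩ := hv
  obtain ⟨f, hf, hs1, hs0⟩ := hdec
  by_contra hcon
  have hT : ∀ i y, (∀ t ∈ (E i).fixingSubgroup, τ t y = y) → y = 0 := by
    intro i y hy
    by_contra hy0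
    exact hcon ⟨E i, ⟨i, rfl⟩, y, hy0, hy⟩
  refine hv0 (zero_of_fun' τ F.fixingSubgroup ⟨?_⟩ (fun i => (E i).fixingSubgroup)
    (fun i => IntermediateField.fixingSubgroup_antitone (hE i)) f ?_ ?_ ?_ hT hv)
  · rw [← finrank_eq_fixingSubgroup_index]
    exact finrank_pos.ne'
  · intro i g t ht
    refine hf i _ _ fun x hx => ?_
    rw [AlgEquiv.mul_apply, (IntermediateField.mem_fixingSubgroup_iff _ _).1 ht x hx]
  · exact fun g hg => hs1 g ((IntermediateField.mem_fixingSubgroup_iff _ _).1 hg)
  · exact fun g hg => hs0 g fun h => hg ((IntermediateField.mem_fixingSubgroup_iff _ _).2 h)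

/-- **The criterion.** -/
theorem cycBound_of_decomposes (P : Finset ℕ) {ι : Type} [Fintype ι] {E : ι → IntermediateField ℚ Qb}
    (hFf : FiniteDimensional ℚ F) (hE : ∀ i, E i ≤ F) (hdec : DecomposesIn (ZMod p) F E) :
    CycBound p P (Set.range E) F := by
  obtain ⟨N, hN, hNf, hNg⟩ := exists_galois F
  refine cycBound_of_dominates hp.out P N hNf hNg F hN _ ?_ (dominates_of hFf hE hdec N)
  rintro _ ⟨i, rfl⟩
  exact (hE i).trans hN

end field

end Pool.Agent.U725.RE
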