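import Pool.Agent.U725.RE.Abs

/-!
# Classes with local conditions over fields generated by subfields and by radicals
-/

set_option autoImplicit false

namespace Pool.Agent.U725.RE

open Module IntermediateField Pool.Agent.U10.Shr Pool.Agent.U152.RK

section defs

variable {k : Type*} [Field k] {A : Type*} [Field A] [Algebra k A]

/-- The field `F` is generated over its subfield `E` by the elements `a i ≠ 0` whose `m`-th powers are
in `E`, `m ≥ 1`. -/
structure IsRadical (E F : IntermediateField k A) (m : ℕ) {r : ℕ} (a : Fin r → A) : Prop where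
  pos : 1 ≤ m
  ne : ∀ i, a i ≠ 0
  pow_mem : ∀ i, a i ^ m ∈ E
  top : E ⊔ IntermediateField.adjoin k (Set.range a) = F

/-- The simple radical extension `E(b)` of `E`, `b = ∏ a_i ^ (e i)`. -/
def simple (E : IntermediateField k A) {m r : ℕ} (a : Fin r → A) (e : Fin r → Fin m) :
    IntermediateField k A :=
  E ⊔ IntermediateField.adjoin k {∏ i, a i ^ (e i : ℕ)}

/-- The indicator function of the inclusion among the restrictions of the automorphisms of `A` to `F` is
a rational combination of functions of the restrictions to the subfields `E i`: there are integral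
functions `f i g` which depend only on the restriction of `g` to `E i`, such that `∑ f i g` is `C ≠ 0` if
`g` is trivial on `F`, and `0` if not. -/
def Decomposes (F : IntermediateField k A) {ι : Type} [Fintype ι] (E : ι → IntermediateField k A) :
    Prop :=
  ∃ (f : ι → (A ≃ₐ[k] A) → ℤ) (C : ℤ), C ≠ 0 ∧
    (∀ i g h, (∀ x ∈ E i, g x = h x) → f i g = f i h) ∧
    (∀ g : A ≃ₐ[k] A, (∀ x ∈ F, g x = x) → ∑ i, f i g = C) ∧
    ∀ g : A ≃ₐ[k] A, (¬ ∀ x ∈ F, g x = x) → ∑ i, f i g = 0

end defs

section rad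

variable {k : Type*} [Field k] {A : Type*} [Field A] [Algebra k A]
  {E F : IntermediateField k A} {m r : ℕ} {a : Fin r → A}

theorem le_top (h : IsRadical E F m a) : E ≤ F := by
  rw [← h.top]
  exact le_sup_left

theorem a_mem (h : IsRadical E F m a) (i : Fin r) : a i ∈ F := by
  rw [← h.top]
  exact (le_sup_right : _ ≤ E ⊔ _) (IntermediateField.subset_adjoin k _ ⟨i, rfl⟩)

theorem simple_le (h : IsRadical E F m a) (e : Fin r → Fin m) : simple E a e ≤ F := by
  refine sup_le (le_top h) ?_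
  rw [IntermediateField.adjoin_le_iff]
  rintro _ rfl
  exact prod_mem fun i _ => pow_mem (a_mem h i) _

theorem b_mem (e : Fin r → Fin m) : (∏ i, a i ^ (e i : ℕ)) ∈ simple E a e :=
  (le_sup_right : _ ≤ simple E a e) (IntermediateField.subset_adjoin k _ rfl)

theorem fix_of (h : IsRadical E F m a) {g : A ≃ₐ[k] A} (hE : ∀ x ∈ E, g x = x)
    (ha : ∀ i, g (a i) = a i) : ∀ x ∈ F, g x = x := by
  let K : IntermediateField k A :=
    { AlgHom.equalizer (g : A →ₐ[k] A) (AlgHom.id k A) with
      inv_mem' := fun x hx => by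
        have hx' : g x = x := hx
        show g x⁻¹ = x⁻¹
        rw [map_inv₀, hx'] }
  have h1 : F ≤ K := by
    rw [← h.top]
    refine sup_le (fun x hx => hE x hx) ?_
    rw [IntermediateField.adjoin_le_iff]
    rintro _ ⟨i, rfl⟩
    exact ha i
  exact fun x hx => h1 hx

theorem z_pow (h : IsRadical E F m a) {g : A ≃ₐ[k] A} (hE : ∀ x ∈ E, g x = x)
    (e : Fin r → Fin m) :
    (g (∏ i, a i ^ (e i : ℕ)) / ∏ i, a i ^ (e i : ℕ)) ^ m = 1 := by
  have h0 : (∏ i, a i ^ (e i : ℕ)) ≠ 0 := Finset.prod_ne_zero_iff.2 fun i _ => pow_ne_zero _ (h.ne i)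
  have h1 : (∏ i, a i ^ (e i : ℕ)) ^ m ∈ E := by
    rw [← Finset.prod_pow]
    refine prod_mem fun i _ => ?_
    rw [← pow_mul, mul_comm, pow_mul]
    exact pow_mem (h.pow_mem i) _
  rw [div_pow, ← map_pow, hE _ h1]
  exact div_self (pow_ne_zero _ h0)

open Classical in
theorem z_sum (h : IsRadical E F m a) {g : A ≃ₐ[k] A} (hE : ∀ x ∈ E, g x = x) :
    ∑ e : Fin r → Fin m, g (∏ i, a i ^ (e i : ℕ)) / (∏ i, a i ^ (e i : ℕ)) =
      if ∀ i, g (a i) = a i then ((m : A)) ^ r else 0 := by
  have h1 : ∀ e : Fin r → Fin m, g (∏ i, a i ^ (e i : ℕ)) / (∏ i, a i ^ (e i : ℕ)) =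
      ∏ i, (g (a i) / a i) ^ (e i : ℕ) := by
    intro e
    rw [map_prod, ← Finset.prod_div_distrib]
    refine Finset.prod_congr rfl fun i _ => ?_
    rw [map_pow, div_pow]
  have h2 : ∀ i, (g (a i) / a i) ^ m = 1 := by
    intro i
    rw [div_pow, ← map_pow, hE _ (h.pow_mem i)]
    exact div_self (pow_ne_zero _ (h.ne i))
  have h3 := Finset.prod_univ_sum (fun _ : Fin r => (Finset.univ : Finset (Fin m)))
    (fun i k => (g (a i) / a i) ^ (k : ℕ))
  rw [Fintype.piFinset_univ] at h3
  rw [Finset.sum_congr rfl fun e _ => h1 e, ← h3, Finset.prod_congr rfl fun i _ => geom (h2 i)]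
  split_ifs with h4
  · rw [Finset.prod_congr rfl fun i _ => if_pos ((div_eq_one_iff_eq (h.ne i)).2 (h4 i))]
    rw [Finset.prod_const, Finset.card_univ, Fintype.card_fin]
  · push Not at h4
    obtain ⟨i, hi⟩ := h4
    exact Finset.prod_eq_zero (Finset.mem_univ i)
      (if_neg fun h5 => hi ((div_eq_one_iff_eq (h.ne i)).1 h5))

/-- **Radical extensions.** -/
theorem decomposes_rad [CharZero A] (h : IsRadical E F m a) :
    Decomposes F (fun e : Fin r → Fin m => simple E a e) := by
  classical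
  obtain ⟨u, D, hD, hu⟩ := exists_u A m h.pos
  have hm : ((m : ℤ) ^ r) ≠ 0 := by
    have := h.pos
    have h2 : (m : ℤ) ≠ 0 := by exact_mod_cast (by omega : m ≠ 0)
    exact pow_ne_zero _ h2
  have key : ∀ g : A ≃ₐ[k] A, (∀ x ∈ E, g x = x) →
      ∑ e : Fin r → Fin m, u (g (∏ i, a i ^ (e i : ℕ)) / ∏ i, a i ^ (e i : ℕ)) =
        (if ∀ i, g (a i) = a i then (m : ℤ) ^ r else 0) * D := by
    intro g hg
    refine hu _ _ _ (fun e => z_pow h hg e) ?_
    rw [z_sum h hg]
    split_ifs <;> push_cast <;> rfl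
  refine ⟨fun e g => if ∀ x ∈ E, g x = x then
    u (g (∏ i, a i ^ (e i : ℕ)) / ∏ i, a i ^ (e i : ℕ)) else 0, (m : ℤ) ^ r * D,
    mul_ne_zero hm hD, ?_, ?_, ?_⟩
  · intro e g g' hgg
    have h1 : (∀ x ∈ E, g x = x) ↔ ∀ x ∈ E, g' x = x := by
      have h2 : ∀ x ∈ E, g x = g' x := fun x hx => hgg x ((le_sup_left : E ≤ simple E a e) hx)
      exact ⟨fun h3 x hx => by rw [← h2 x hx, h3 x hx], fun h3 x hx => by rw [h2 x hx, h3 x hx]⟩
    simp only [h1, hgg _ (b_mem e)]
  · intro g hg
    have h1 : ∀ x ∈ E, g x = x := fun x hx => hg x (le_top h hx)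
    simp only [if_pos h1]
    rw [key g h1, if_pos fun i => hg _ (a_mem h i)]
  · intro g hg
    by_cases h1 : ∀ x ∈ E, g x = x
    · simp only [if_pos h1]
      rw [key g h1, if_neg fun h2 => hg (fix_of h h1 h2), zero_mul]
    · simp only [if_neg h1]
      exact Finset.sum_const_zero

end rad

section zr

variable {k : Type*} [Field k] {A : Type} [Field A] [Algebra k A] [IsGalois k A]
variable {R : Type*} [CommRing R] [IsDomain R] [CharZero R] {M : Type*}
  [AddCommGroup M] [Module R M] {a : (A ≃ₐ[k] A) →* Module.End R M} (L : LocData a)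

/-- the action of `G / N` on the classes over `N` -/
noncomputable def rho (N : Subgroup (A ≃ₐ[k] A)) [hN : N.Normal] :
    (A ≃ₐ[k] A) ⧸ N →* Module.End R (L.Sh N) :=
  QuotientGroup.lift N
    { toFun := fun g => L.cj' N g
      map_one' := LinearMap.ext fun x => cj'_one L N x
      map_mul' := fun g h => LinearMap.ext fun x => cj'_mul L N g h x }
    (fun g hg => LinearMap.ext fun x => cj'_self L N g hg x)

theorem rho_mk (N : Subgroup (A ≃ₐ[k] A)) [hN : N.Normal] (g : A ≃ₐ[k] A) (x : L.Sh N) :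
    rho L N (QuotientGroup.mk' N g) x = L.cj' N g x := rfl

/-- **The criterion.** -/
theorem zr_of_decomposes {F : IntermediateField k A} [FiniteDimensional k F] {ι : Type} [Fintype ι]
    {E : ι → IntermediateField k A} (hE : ∀ i, E i ≤ F) (hd : Decomposes F E)
    (hz : ∀ i, Zr L (E i).fixingSubgroup) : Zr L F.fixingSubgroup := by
  classical
  obtain ⟨f, C, hC, hf, hs1, hs0⟩ := hd
  obtain ⟨N, hN, hNf, hNo, hNF⟩ := exists_normal F
  have hNE : ∀ i, N ≤ (E i).fixingSubgroup := fun i =>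
    hNF.trans (IntermediateField.fixingSubgroup_antitone (hE i))
  have hfin : Fintype ((A ≃ₐ[k] A) ⧸ N) := Fintype.ofFinite _
  rw [zr_iff L hNF hNo]
  intro x hx
  -- the functions on the quotient
  have hout : ∀ g : A ≃ₐ[k] A, ∀ y ∈ F, (QuotientGroup.mk' N g).out y = g y := by
    intro g y hy
    obtain ⟨n, hn⟩ := QuotientGroup.mk_out_eq_mul N g
    have h1 : (QuotientGroup.mk' N g).out = g * n := hn
    rw [h1, AlgEquiv.mul_apply]
    congr 1
    exact (IntermediateField.mem_fixingSubgroup_iff _ _).1 (hNF n.2) y hy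
  have hfo : ∀ i g, f i (QuotientGroup.mk' N g).out = f i g := fun i g =>
    hf i _ _ fun y hy => hout g y (hE i hy)
  have hS : ∀ g : A ≃ₐ[k] A, QuotientGroup.mk' N g ∈ F.fixingSubgroup.map (QuotientGroup.mk' N) ↔
      ∀ y ∈ F, g y = y := by
    intro g
    constructor
    · rintro ⟨g', hg', h1⟩ y hy
      have h2 := hout g y hy
      rw [← h1, hout g' y hy] at h2
      rw [← h2]
      exact (IntermediateField.mem_fixingSubgroup_iff _ _).1 hg' y hy
    · intro h1
      exact ⟨g, (IntermediateField.mem_fixingSubgroup_iff _ _).2 h1, rfl⟩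
  refine tor_of_fun (rho L N) (F.fixingSubgroup.map (QuotientGroup.mk' N))
    (fun i => (E i).fixingSubgroup.map (QuotientGroup.mk' N)) (fun i q => f i q.out) hC ?_ ?_ ?_ ?_
  · rintro i q _ ⟨h, hh, rfl⟩
    obtain ⟨g, rfl⟩ := QuotientGroup.mk'_surjective N q
    rw [← map_mul]
    simp only [hfo]
    refine hf i _ _ fun y hy => ?_
    rw [AlgEquiv.mul_apply, (IntermediateField.mem_fixingSubgroup_iff _ _).1 hh y hy]
  · intro q
    obtain ⟨g, rfl⟩ := QuotientGroup.mk'_surjective N q
    simp only [hfo]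
    split_ifs with h
    · exact hs1 g ((hS g).1 h)
    · exact hs0 g fun h1 => h ((hS g).2 h1)
  · intro i y hy
    refine (zr_iff L (hNE i) hNo).1 (hz i) y fun h hh => ?_
    exact hy (QuotientGroup.mk' N h) ⟨h, hh, rfl⟩
  · rintro _ ⟨h, hh, rfl⟩
    exact hx h hh

/-- **Radical extensions.** -/
theorem zr_radical [CharZero A] {E F : IntermediateField k A} [FiniteDimensional k F] {m r : ℕ}
    {b : Fin r → A} (h : IsRadical E F m b)
    (hz : ∀ e : Fin r → Fin m, Zr L (simple E b e).fixingSubgroup) : Zr L F.fixingSubgroup :=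
  zr_of_decomposes L (fun e => simple_le h e) (decomposes_rad h) hz

end zr

end Pool.Agent.U725.RE
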