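import Pool.Agent.U725.RE.Fld
import Pool.Agent.U10.Mu.A
import Pool.Agent.U10.Mu.Fam

/-!
# Iwasawa modules modulo `p` over fields generated by subfields and by radicals
-/

set_option autoImplicit false
set_option linter.unusedSectionVars false
set_option linter.style.haveILetI false

namespace Pool.Agent.U725.RE

open Module IntermediateField Pool.Agent.U10.Mu

section fin

variable {R : Type*} [CommRing R] [IsDomain R] {V : Type*} [AddCommGroup V] [Module R V]
  [IsTorsionFree R V] {Q : Type*} [Group Q] [Fintype Q] {ι : Type*} [Fintype ι]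

theorem natsmul_zero {c : ℕ} (hc : (c : R) ≠ 0) {x : V} (h : c • x = 0) : x = 0 := by
  rw [← Nat.cast_smul_eq_nsmul R] at h
  exact (smul_eq_zero.1 h).resolve_left hc

open Classical in
theorem zero_of_fun (ρ : Q →* Module.End R V) (hQ : (Nat.card Q : R) ≠ 0) (S : Subgroup Q)
    (T : ι → Subgroup Q) (f : ι → Q → R) (hinv : ∀ i q, ∀ s ∈ T i, f i (q * s) = f i q)
    (hsum : ∀ q, ∑ i, f i q = if q ∈ S then 1 else 0)
    (hT : ∀ i y, (∀ s ∈ T i, ρ s y = y) → y = 0) {x : V} (hx : ∀ s ∈ S, ρ s x = x) :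
    x = 0 := by
  have hcard : ∀ H : Subgroup Q, ((Fintype.card H : ℕ) : R) ≠ 0 := by
    intro H h0
    obtain ⟨c, hc⟩ : Nat.card H ∣ Nat.card Q := Subgroup.card_subgroup_dvd_card H
    refine hQ ?_
    rw [hc, Nat.cast_mul, Nat.card_eq_fintype_card, h0, zero_mul]
  have h1 : ∀ i, ∑ q, f i q • ρ q x = 0 := by
    intro i
    obtain ⟨y, hy⟩ : ∃ y, y = ∑ s : T i, ρ (s : Q) x := ⟨_, rfl⟩
    have hyT : y = 0 := by
      refine hT i y fun t ht => ?_
      rw [hy, map_sum]
      refine Fintype.sum_equiv (Equiv.mulLeft (⟨t, ht⟩ : T i)) _ _ fun s => ?_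
      show ρ t (ρ (s : Q) x) = ρ (t * (s : Q)) x
      rw [map_mul]
      rfl
    have h2 : (Fintype.card (T i)) • (∑ q, f i q • ρ q x) = ∑ q, f i q • ρ q y := by
      have h3 : ∀ s : T i, ∑ q, f i q • ρ q x = ∑ q, f i q • ρ q (ρ (s : Q) x) := by
        intro s
        symm
        refine Fintype.sum_equiv (Equiv.mulRight (s : Q)) _ _ fun q => ?_
        show f i q • ρ q (ρ (s : Q) x) = f i (q * s) • ρ (q * (s : Q)) x
        rw [hinv i q s s.2, map_mul]
        rfl
      have h4 : (Fintype.card (T i)) • (∑ q, f i q • ρ q x) =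
          ∑ s : T i, ∑ q, f i q • ρ q (ρ (s : Q) x) := by
        rw [← Finset.sum_congr rfl fun s _ => h3 s, Finset.sum_const, Finset.card_univ]
      rw [h4, Finset.sum_comm]
      refine Finset.sum_congr rfl fun q _ => ?_
      rw [← Finset.smul_sum, hy, map_sum]
    rw [hyT] at h2
    simp only [map_zero, smul_zero, Finset.sum_const_zero] at h2
    exact natsmul_zero (hcard _) h2
  have h6 : ∑ i, ∑ q, f i q • ρ q x = 0 := Finset.sum_eq_zero fun i _ => h1 i
  have h7 : ∑ i, ∑ q, f i q • ρ q x = (Fintype.card S) • x := by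
    rw [Finset.sum_comm]
    have h8 : ∀ q : Q, ∑ i, f i q • ρ q x = if q ∈ S then x else 0 := by
      intro q
      rw [← Finset.sum_smul, hsum q]
      split_ifs with h
      · rw [hx q h, one_smul]
      · rw [zero_smul]
    rw [Finset.sum_congr rfl fun q _ => h8 q, ← Finset.sum_filter, Finset.sum_const]
    congr 1
    rw [Fintype.card_subtype]
  rw [h7] at h6
  exact natsmul_zero (hcard _) h6

end fin

section roots

/-- Sums of algebraic integers modulo `p`. -/
theorem exists_up (A : Type*) [Field A] [CharZero A] (p : ℕ) [hp : Fact p.Prime] :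
    ∃ u : A → ZMod p, ∀ (ι : Type) [Fintype ι] (z : ι → A) (c : ℤ),
      (∀ i, IsIntegral ℤ (z i)) → ∑ i, z i = (c : A) → ∑ i, u (z i) = c := by
  classical
  let O := integralClosure ℤ A
  have hne : Ideal.span {((p : ℕ) : O)} ≠ ⊤ := by
    intro htop
    rw [Ideal.span_singleton_eq_top] at htop
    obtain ⟨v, hv⟩ := htop
    have h1 : ((v⁻¹ : Oˣ) : O) * (p : O) = 1 := by rw [← hv]; exact v.inv_mul
    have h2 : (((v⁻¹ : Oˣ) : O) : A) * (p : A) = 1 := by
      have h3 := congrArg (Subtype.val : O → A) h1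
      simpa using h3
    have hpA : (p : A) ≠ 0 := Nat.cast_ne_zero.2 hp.out.ne_zero
    have h3 : algebraMap ℚ A (1 / p : ℚ) = (((v⁻¹ : Oˣ) : O) : A) := by
      rw [map_div₀, map_one, map_natCast, div_eq_iff hpA, h2]
    have h4 : IsIntegral ℤ (algebraMap ℚ A (1 / p : ℚ)) := by
      rw [h3]
      exact ((v⁻¹ : Oˣ) : O).2
    have h5 : IsIntegral ℤ (1 / p : ℚ) :=
      (isIntegral_algebraMap_iff (algebraMap ℚ A).injective).1 h4
    obtain ⟨t, ht⟩ := IsIntegrallyClosed.isIntegral_iff.1 h5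
    have hpq : (p : ℚ) ≠ 0 := Nat.cast_ne_zero.2 hp.out.ne_zero
    have h6 : (t : ℚ) * p = 1 := by
      have h7 : (t : ℚ) = 1 / p := ht
      rw [h7]
      field_simp
    have h7 : t * (p : ℤ) = 1 := by exact_mod_cast h6
    have h8 := Int.isUnit_iff.1 (IsUnit.of_mul_eq_one t ((mul_comm _ _).trans h7))
    have h9 := hp.out.two_le
    omega
  obtain ⟨P, hP, hPle⟩ := Ideal.exists_le_maximal _ hne
  letI : Field (O ⧸ P) := Ideal.Quotient.field P
  have hp0 : ((p : ℕ) : O ⧸ P) = 0 := by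
    have h1 : ((p : ℕ) : O) ∈ P := hPle (Ideal.subset_span rfl)
    have h2 := Ideal.Quotient.eq_zero_iff_mem.2 h1
    rwa [map_natCast] at h2
  haveI : CharP (O ⧸ P) p := by
    refine (CharP.charP_iff_prime_eq_zero hp.out).2 hp0
  letI : Algebra (ZMod p) (O ⧸ P) := ZMod.algebra _ p
  obtain ⟨e, he⟩ : ∃ e : Module.Dual (ZMod p) (O ⧸ P), e 1 ≠ 0 := by
    by_contra hcon
    exact one_ne_zero (α := O ⧸ P) ((Module.forall_dual_apply_eq_zero_iff (ZMod p) (1 : O ⧸ P)).1
      fun e => by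
        by_contra h
        exact hcon ⟨e, h⟩)
  obtain ⟨l, hl⟩ : ∃ l : Module.Dual (ZMod p) (O ⧸ P), l 1 = 1 :=
    ⟨(e 1)⁻¹ • e, by rw [LinearMap.smul_apply, smul_eq_mul, inv_mul_cancel₀ he]⟩
  have hli : ∀ c : ℤ, l (c : O ⧸ P) = c := by
    intro c
    have h1 : (c : O ⧸ P) = c • (1 : O ⧸ P) := by rw [zsmul_one]
    rw [h1, map_zsmul, hl, zsmul_one]
  refine ⟨fun z => if h : IsIntegral ℤ z then l (Ideal.Quotient.mk P ⟨z, h⟩) else 0, ?_⟩
  intro ι _ z c hz hsum
  have h1 : ∀ i, (if h : IsIntegral ℤ (z i) then l (Ideal.Quotient.mk P ⟨z i, h⟩) else 0) =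
      l (Ideal.Quotient.mk P ⟨z i, hz i⟩) := fun i => dif_pos (hz i)
  rw [Finset.sum_congr rfl fun i _ => h1 i, ← map_sum, ← map_sum]
  have h2 : (∑ i, (⟨z i, hz i⟩ : O)) = (c : O) := by
    refine Subtype.ext ?_
    rw [AddSubmonoidClass.coe_finsetSum]
    simpa using hsum
  rw [h2, map_intCast, hli]

end roots

section defs

variable {k : Type*} [Field k] {A : Type*} [Field A] [Algebra k A]

/-- The indicator function of the inclusion among the restrictions of the automorphisms of `A` to `F` is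
a sum of `R`-valued functions of the restrictions to the subfields `E i`. -/
def DecomposesIn (R : Type*) [CommRing R] (F : IntermediateField k A) {ι : Type} [Fintype ι]
    (E : ι → IntermediateField k A) : Prop :=
  ∃ f : ι → (A ≃ₐ[k] A) → R,
    (∀ i g h, (∀ x ∈ E i, g x = h x) → f i g = f i h) ∧
    (∀ g : A ≃ₐ[k] A, (∀ x ∈ F, g x = x) → ∑ i, f i g = 1) ∧
    ∀ g : A ≃ₐ[k] A, (¬ ∀ x ∈ F, g x = x) → ∑ i, f i g = 0

theorem DecomposesIn.map {R R' : Type*} [CommRing R] [CommRing R'] (φ : R →+* R')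
    {F : IntermediateField k A} {ι : Type} [Fintype ι] {E : ι → IntermediateField k A}
    (h : DecomposesIn R F E) : DecomposesIn R' F E := by
  obtain ⟨f, h1, h2, h3⟩ := h
  refine ⟨fun i g => φ (f i g), fun i g g' hg => congrArg φ (h1 i g g' hg), fun g hg => ?_,
    fun g hg => ?_⟩
  · rw [← map_sum, h2 g hg, map_one]
  · rw [← map_sum, h3 g hg, map_zero]

theorem decomposesIn_rad [CharZero A] {E F : IntermediateField k A} {m r : ℕ} {a : Fin r → A}
    (h : IsRadical E F m a) (p : ℕ) [hp : Fact p.Prime] (hpm : ¬ p ∣ m) :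
    DecomposesIn (ZMod p) F (fun e : Fin r → Fin m => simple E a e) := by
  classical
  obtain ⟨u, hu⟩ := exists_up A p
  have hm : ((m : ZMod p) ^ r) ≠ 0 := by
    refine pow_ne_zero _ fun h0 => hpm ?_
    exact (ZMod.natCast_eq_zero_iff m p).1 h0
  have key : ∀ g : A ≃ₐ[k] A, (∀ x ∈ E, g x = x) →
      ∑ e : Fin r → Fin m, u (g (∏ i, a i ^ (e i : ℕ)) / ∏ i, a i ^ (e i : ℕ)) =
        (if ∀ i, g (a i) = a i then (m : ZMod p) ^ r else 0) := by
    intro g hg
    have h1 := hu _ (fun e : Fin r → Fin m => g (∏ i, a i ^ (e i : ℕ)) / ∏ i, a i ^ (e i : ℕ))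
      (if ∀ i, g (a i) = a i then (m : ℤ) ^ r else 0) (fun e => ?_) (by
        rw [z_sum h hg]
        split_ifs <;> push_cast <;> rfl)
    · rw [h1]
      split_ifs <;> push_cast <;> rfl
    · have h2 := z_pow h hg e
      exact IsIntegral.of_pow h.pos (by rw [h2]; exact isIntegral_one)
  refine ⟨fun e g => if ∀ x ∈ E, g x = x then
    ((m : ZMod p) ^ r)⁻¹ * u (g (∏ i, a i ^ (e i : ℕ)) / ∏ i, a i ^ (e i : ℕ)) else 0, ?_, ?_, ?_⟩
  · intro e g g' hgg
    have h1 : (∀ x ∈ E, g x = x) ↔ ∀ x ∈ E, g' x = x := by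
      have h2 : ∀ x ∈ E, g x = g' x := fun x hx => hgg x ((le_sup_left : E ≤ simple E a e) hx)
      exact ⟨fun h3 x hx => by rw [← h2 x hx, h3 x hx], fun h3 x hx => by rw [h2 x hx, h3 x hx]⟩
    simp only [h1, hgg _ (b_mem e)]
  · intro g hg
    have h1 : ∀ x ∈ E, g x = x := fun x hx => hg x (le_top h hx)
    simp only [if_pos h1]
    rw [← Finset.mul_sum, key g h1, if_pos fun i => hg _ (a_mem h i), inv_mul_cancel₀ hm]
  · intro g hg
    by_cases h1 : ∀ x ∈ E, g x = x
    · simp only [if_pos h1]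
      rw [← Finset.mul_sum, key g h1, if_neg fun h2 => hg (fix_of h h1 h2), mul_zero]
    · simp only [if_neg h1]
      exact Finset.sum_const_zero

end defs

section field

variable {k A : Type} [Field k] [Field A] [Algebra k A] [IsGalois k A]
variable {R : Type} [CommRing R] [IsDomain R] [TopologicalSpace R] [IsTopologicalRing R]

theorem fx_zero {G S : Type} [Group G] [AddCommGroup S] [Module R S] [IsTorsionFree R S]
    (ρ : G →* Module.End R S) (H : Subgroup G) :
    Module.rank R (Fx ρ H) = 0 ↔ ∀ x, (∀ h ∈ H, ρ h x = x) → x = 0 := by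
  rw [rank_eq_zero_iff]
  constructor
  · intro h x hx
    obtain ⟨c, hc, h1⟩ := h ⟨x, hx⟩
    exact (smul_eq_zero.1 (congrArg Subtype.val h1)).resolve_left hc
  · rintro h ⟨x, hx⟩
    refine ⟨1, one_ne_zero, ?_⟩
    rw [one_smul]
    exact Subtype.ext (h x hx)

theorem rk_zero_of_decomposes {κ : (A ≃ₐ[k] A) →* R} {Fam : Set (Subgroup (A ≃ₐ[k] A))}
    (hFam : Stab Fam) {Ω : IntermediateField k A} (hn : Normal k Ω) (hd : Deg R Ω)
    {F : IntermediateField k A} (hF : F ≤ Ω) (hFf : FiniteDimensional k F) {ι : Type} [Fintype ι]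
    {E : ι → IntermediateField k A} (hE : ∀ i, E i ≤ F) (hdec : DecomposesIn R F E)
    (hz : ∀ i, rkF κ Fam (E i) = 0) : rkF κ Fam F = 0 := by
  classical
  obtain ⟨f, hf, hs1, hs0⟩ := hdec
  obtain ⟨L, hL1, hL2, hL3, hL4⟩ := exists_normal' hn F hF hFf
  obtain ⟨S, _, _, _, ρ, h5, h6⟩ := exists_rep Pool.Agent.U10.Mu.A.proof (κ := κ) hFam hd L
    hL1 hL2 hL3
  obtain ⟨N, hNdef⟩ : ∃ N, N = L.fixingSubgroup := ⟨_, rfl⟩
  haveI : IsGalois k L := IsGalois.mk
  have hN : N.Normal := by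
    rw [hNdef]
    exact (InfiniteGalois.normal_iff_isGalois _).2 inferInstance
  have hidx : N.index = finrank k L := by
    rw [hNdef, finrank_eq_fixingSubgroup_index]
  have hNf : N.FiniteIndex := ⟨by rw [hidx]; exact finrank_pos.ne'⟩
  have hNF : N ≤ F.fixingSubgroup := by
    rw [hNdef]
    exact IntermediateField.fixingSubgroup_antitone hL4
  have hNE : ∀ i, N ≤ (E i).fixingSubgroup := fun i =>
    hNF.trans (IntermediateField.fixingSubgroup_antitone (hE i))
  rw [← hNdef] at h5 h6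
  have hfin : Fintype ((A ≃ₐ[k] A) ⧸ N) := Fintype.ofFinite _
  have hz' : ∀ i x, (∀ h ∈ (E i).fixingSubgroup, ρ h x = x) → x = 0 := by
    intro i
    have h1 := hz i
    unfold rkF at h1
    rw [h6 _ (hNE i)] at h1
    exact (fx_zero ρ _).1 h1
  unfold rkF
  rw [h6 _ hNF, fx_zero]
  intro x hx
  let ρ' : (A ≃ₐ[k] A) ⧸ N →* Module.End R S := QuotientGroup.lift N ρ h5
  -- the functions on the quotient
  have hout : ∀ g : A ≃ₐ[k] A, ∀ y ∈ F, (QuotientGroup.mk' N g).out y = g y := by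
    intro g y hy
    obtain ⟨n, hn⟩ := QuotientGroup.mk_out_eq_mul N g
    have h1 : (QuotientGroup.mk' N g).out = g * n := hn
    rw [h1, AlgEquiv.mul_apply]
    congr 1
    exact (IntermediateField.mem_fixingSubgroup_iff _ _).1 (hNF n.2) y hy
  have hfo : ∀ i g, f i (QuotientGroup.mk' N g).out = f i g := fun i g =>
    hf i _ _ fun y hy => hout g y (hE i hy)
  have hS : ∀ g : A ≃ₐ[k] A, QuotientGroup.mk' N g ∈ F.fixingSubgroup.map (QuotientGroup.mk' N) ↔
      ∀ y ∈ F, g y = y := by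
    intro g
    constructor
    · rintro ⟨g', hg', h1⟩ y hy
      have h2 := hout g y hy
      rw [← h1, hout g' y hy] at h2
      rw [← h2]
      exact (IntermediateField.mem_fixingSubgroup_iff _ _).1 hg' y hy
    · intro h1
      exact ⟨g, (IntermediateField.mem_fixingSubgroup_iff _ _).2 h1, rfl⟩
  refine zero_of_fun ρ' ?_ (F.fixingSubgroup.map (QuotientGroup.mk' N))
    (fun i => (E i).fixingSubgroup.map (QuotientGroup.mk' N)) (fun i q => f i q.out) ?_ ?_ ?_ ?_
  · have h1 : Nat.card ((A ≃ₐ[k] A) ⧸ N) = finrank k L := hidx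
    rw [h1]
    exact hd L hL1 hL2
  · rintro i q _ ⟨h, hh, rfl⟩
    obtain ⟨g, rfl⟩ := QuotientGroup.mk'_surjective N q
    rw [← map_mul]
    simp only [hfo]
    refine hf i _ _ fun y hy => ?_
    rw [AlgEquiv.mul_apply, (IntermediateField.mem_fixingSubgroup_iff _ _).1 hh y hy]
  · intro q
    obtain ⟨g, rfl⟩ := QuotientGroup.mk'_surjective N q
    simp only [hfo]
    split_ifs with h
    · exact hs1 g ((hS g).1 h)
    · exact hs0 g fun h1 => h ((hS g).2 h1)
  · intro i y hy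
    refine hz' i y fun h hh => ?_
    exact hy (QuotientGroup.mk' N h) ⟨h, hh, rfl⟩
  · rintro _ ⟨h, hh, rfl⟩
    exact hx h hh

end field

section mu

variable {k : Type} [Field k] [CharZero k] {p : ℕ} [Fact p.Prime]

theorem deg_of {Ω : IntermediateField k (AlgebraicClosure k)}
    (hd : ∀ K ≤ Ω, FiniteDimensional k K → ¬ p ∣ finrank k K) :
    Deg (PowerSeries (ZMod p)) Ω := by
  intro K hK hKf h
  refine hd K hK hKf ?_
  rw [← CharP.cast_eq_zero_iff (ZMod p) p]
  have h1 := congrArg (PowerSeries.constantCoeff (R := ZMod p)) h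
  rwa [map_natCast, map_zero] at h1

open scoped PowerSeries.WithPiTopology in
/-- **The criterion.** -/
theorem mu_of_decomposes
    (a : (AlgebraicClosure k ≃ₐ[k] AlgebraicClosure k) →* Multiplicative ℤ_[p])
    {Fam : Set (Subgroup (AlgebraicClosure k ≃ₐ[k] AlgebraicClosure k))} (hFam : Stab Fam)
    {Ω : IntermediateField k (AlgebraicClosure k)} (hn : Normal k Ω)
    (hd : ∀ K ≤ Ω, FiniteDimensional k K → ¬ p ∣ finrank k K)
    {F : IntermediateField k (AlgebraicClosure k)} (hF : F ≤ Ω) (hFf : FiniteDimensional k F)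
    {ι : Type} [Fintype ι] {E : ι → IntermediateField k (AlgebraicClosure k)} (hE : ∀ i, E i ≤ F)
    (hdec : DecomposesIn (ZMod p) F E) (hz : ∀ i, rkE p a Fam (E i) = 0) :
    rkE p a Fam F = 0 := by
  rw [rkE_eq]
  refine rk_zero_of_decomposes hFam hn (deg_of hd) hF hFf hE
    (hdec.map (PowerSeries.C (R := ZMod p))) fun i => ?_
  rw [← rkE_eq]
  exact hz i

end mu

end Pool.Agent.U725.RE
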